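import Pool.Agent.MWC.StmtsB
import Pool.Agent.Helper65_MWC.Checks

/-!
# Squad MWC, row CBB: four clauses of (a')
-/

set_option autoImplicit false

namespace Pool.Agent.MWC.H62

open Pool.Agent.Helper14_MV Pool.Agent.Helper2_MV Pool.Agent.MVO Pool.Agent.MWL Pool.Agent.MWA
open Pool.Agent.MWC

theorem tab_0_2 : tab true 1 [0, 2] 0 = [Bit.E] := by decide
theorem tab_2_1 : tab true 1 [2, 1] 1 = [Bit.D 0] := by decide
theorem tab_2_0 : tab true 1 [2, 0] 1 = [Bit.G] := by decide

theorem mem_0_2 : [0, 2] ∈ vls true 1 := by decide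
theorem mem_2_1 : [2, 1] ∈ vls true 1 := by decide
theorem mem_2_0 : [2, 0] ∈ vls true 1 := by decide
theorem mem_1_1 : [1, 1] ∈ vls true 1 := by decide

theorem cbb (hArb : ArbStmt) (hTyc : TycStmt) (hBtl : BtlStmt) (hMst : MstStmt) : CbbStmt := by
  intro n β h
  obtain ⟨-, hGF, hGD, -, -, hJ⟩ := hArb true n β h.lr
  have hJ2 : ¬ HB true n β (Bit.J 2) := hJ h.iso
  obtain ⟨B1, -, B3⟩ := hBtl true n β h.iso h.cl h.lr
  have T := hTyc true n β h.iso h.cl h.lr
  have T1 : HB true n β Bit.E →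
      (Bt β 1 (rep [0, 2]) (rep [1, 1]) 1 ↔ Bt β 1 (rep [2, 2]) (rep [1, 1]) 1) := by
    intro hE
    refine T 1 1 0 [0, 2] [2, 2] [1, 1] (le_refl 1) (by omega) mem_0_2 mem_1_1 ?_ ?_
    · rw [tab_0_2]
      intro κ hκ
      rw [List.mem_singleton] at hκ
      rw [hκ]
      exact hE
    · decide
  have T2 : HB true n β (Bit.D 0) →
      (Bt β 1 (rep [2, 1]) (rep [1, 1]) 1 ↔ Bt β 1 (rep [2, 2]) (rep [1, 1]) 1) := by
    intro hE
    refine T 1 1 1 [2, 1] [2, 2] [1, 1] (le_refl 1) (by omega) mem_2_1 mem_1_1 ?_ ?_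
    · rw [tab_2_1]
      intro κ hκ
      rw [List.mem_singleton] at hκ
      rw [hκ]
      exact hE
    · decide
  have T3 : HB true n β Bit.G →
      (Bt β 1 (rep [2, 0]) (rep [1, 1]) 1 ↔ Bt β 1 (rep [2, 2]) (rep [1, 1]) 1) := by
    intro hE
    refine T 1 1 1 [2, 0] [2, 2] [1, 1] (le_refl 1) (by omega) mem_2_0 mem_1_1 ?_ ?_
    · rw [tab_2_0]
      intro κ hκ
      rw [List.mem_singleton] at hκ
      rw [hκ]
      exact hE
    · decide
  refine ⟨?_, ?_, ?_, ?_⟩
  · by_contra hc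
    push Not at hc
    obtain ⟨hD, hB⟩ := hc
    refine hMst true n β h _ _ _ _ _ _ _ _ _ _ _ _ _ H65.cB4 (by simp) ?_ ?_
    · intro μ hμ
      simp only [List.mem_cons, List.not_mem_nil, or_false] at hμ
      rcases hμ with rfl | rfl | rfl
      · exact hD
      · exact hJ2
      · exact fun hG => hD (hGD hG)
    · intro q hq
      rw [List.mem_singleton] at hq
      rw [hq]
      exact hB
  · intro h1
    by_contra hc
    push Not at hc
    obtain ⟨hD, hB⟩ := hc
    refine hMst true n β h _ _ _ _ _ _ _ _ _ _ _ _ _ H65.cB5 (by simp) ?_ ?_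
    · intro μ hμ
      simp only [List.mem_cons, List.not_mem_nil, or_false] at hμ
      rcases hμ with rfl | rfl | rfl | rfl
      · exact hD
      · exact hJ2
      · exact fun hG => hD (hGD hG)
      · exact fun hE => hB (B3 _ _ _ _ ((T1 hE).2 (B3 _ _ _ _ h1)))
    · intro q hq
      rw [List.mem_singleton] at hq
      rw [hq]
      exact hB
  · intro h1
    by_contra hc
    push Not at hc
    obtain ⟨hE, hB⟩ := hc
    refine hMst true n β h _ _ _ _ _ _ _ _ _ _ _ _ _ H65.cB6 (by simp) ?_ ?_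
    · intro μ hμ
      simp only [List.mem_cons, List.not_mem_nil, or_false] at hμ
      rcases hμ with rfl | rfl | rfl
      · exact hE
      · exact hJ2
      · exact fun hD => hB (B3 _ _ _ _ ((T2 hD).2 (B3 _ _ _ _ h1)))
    · intro q hq
      rw [List.mem_singleton] at hq
      rw [hq]
      exact hB
  · intro hD
    by_contra hc
    push Not at hc
    obtain ⟨hE, hB⟩ := hc
    have hB2 : ¬ Bt β 1 (rep [1, 1]) (rep [2, 2]) 1 := fun h1 =>
      hB (B3 _ _ _ _ ((T2 hD).2 (B3 _ _ _ _ h1)))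
    refine hMst true n β h _ _ _ _ _ _ _ _ _ _ _ _ _ H65.cB7 (by simp) ?_ ?_
    · intro μ hμ
      simp only [List.mem_cons, List.not_mem_nil, or_false] at hμ
      rcases hμ with rfl | rfl | rfl
      · exact hE
      · exact hJ2
      · exact fun hG => hB2 (B3 _ _ _ _ ((T3 hG).1
          (B1 1 1 [2, 0] [1, 1] (le_refl 1) mem_2_0 mem_1_1 (by decide))))
    · intro q hq
      simp only [List.mem_cons, List.not_mem_nil, or_false] at hq
      rcases hq with rfl | rfl
      · exact hB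
      · exact hB2

end Pool.Agent.MWC.H62
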