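import Pool.Agent.MWC.Stmts

/-!
# Squad MWC, row KPR: sets of shapes which are closed under a bit
-/

set_option autoImplicit false

namespace Pool.Agent.MWC.H62

open Pool.Agent.Helper14_MV Pool.Agent.Helper2_MV Pool.Agent.MVO Pool.Agent.MWL

theorem bit_le (κ : Bit) : κ.i ≤ κ.k := by
  cases κ <;> simp [Bit.i, Bit.k]

theorem bi_le (r : Bool) (κ : Bit) : bi r κ ≤ κ.k := by
  unfold bi
  have := bit_le κ
  split_ifs <;> omega

theorem kpr (hShf : ShfStmt) (hBmp : BmpStmt) : KprStmt := by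
  intro r n k κ C hn hkap f hf c hc hle M hM
  obtain ⟨g, hg, hgf⟩ := hBmp.1 κ.k k f hf
  have hpsl : psl r κ.k k g (ba r κ) = shp r k (psh κ.k f (ba r κ)) := by
    unfold psl
    have : pss κ.k g (ba r κ) = psh κ.k f (ba r κ) := by
      funext j
      exact hBmp.2.2 κ.k g f (ba r κ) j hgf
    rw [this]
  obtain ⟨-, -, -, hd, -, -, -, -⟩ := hShf r k (psh κ.k f (ba r κ))
  obtain ⟨-, -, h3, -, -, -, h7, -⟩ := hShf r k c
  have hles : les k (psl r κ.k k g (ba r κ)) (shp r k c) = true := by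
    rw [hpsl]
    exact hd c hle
  have hvls := h3 hc
  have hfi : f (bi r κ) ≤ k := hf.le _ (bi_le r κ)
  have hM2 : 2 ≤ 2 * n * M := by nlinarith
  rw [h7 (f (bi r κ)) hfi (2 * n * M) hM2]
  unfold kap at hkap
  rw [List.all_eq_true] at hkap
  have h1 := hkap g hg
  rw [List.all_eq_true] at h1
  have h2 := h1 (shp r k c) hvls
  rw [hles, hgf _ (bi_le r κ)] at h2
  simp only [Bool.not_true, Bool.false_or, beq_iff_eq, decide_eq_decide] at h2
  exact h2

end Pool.Agent.MWC.H62
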