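import Pool.Agent.MWC.Stmts

/-!
# Squad MWC, row TYC: change of a type in a block where it absorbs
-/

set_option autoImplicit false

namespace Pool.Agent.MWC.H62

open Pool.Agent.Helper14_MV Pool.Agent.Helper2_MV Pool.Agent.MVO Pool.Agent.MWL

theorem tyc_le_deg (k j : ℕ) (a : ℕ → ℕ) (hj : j ≤ k) : a j ≤ deg k a := by
  unfold deg
  exact Finset.single_le_sum (f := a) (fun _ _ => Nat.zero_le _) (Finset.mem_range.2 (by omega))

theorem tyc_vls {r : Bool} {k : ℕ} {x : List ℕ} (hx : x ∈ vls r k) :
    shp r k (rep x) = x ∧ 2 ≤ x.sum := by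
  unfold vls at hx
  rw [List.mem_filter] at hx
  have h := hx.2
  rw [Bool.and_eq_true] at h
  exact ⟨of_decide_eq_true h.1, Nat.le_of_ble_eq_true h.2⟩

theorem tyc (hFaa : MVO.FaaStmt) (hKyr : KyrStmt) (hTbr : TbrStmt) (hShf : ShfStmt) :
    TycStmt := by
  intro r n β hiso hcl hlr k i j x x1 y hi hj hx hy htab hx1
  obtain ⟨F0, F2, F3, -, -, -⟩ := hFaa β hcl
  obtain ⟨-, hK⟩ := hKyr r n β hiso hlr
  have hn : 1 ≤ n := by
    unfold LRr at hlr
    split_ifs at hlr with h
    · exact hlr.pos
    · exact hlr.pos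
  obtain ⟨hxs, hxsum⟩ := tyc_vls hx
  obtain ⟨hys, hysum⟩ := tyc_vls hy
  have hdx : 2 ≤ deg k (rep x) := by
    rw [(hShf r k (rep x)).2.1, hxs]
    exact hxsum
  have hdy : 2 ≤ deg k (rep y) := by
    rw [(hShf r k (rep y)).2.1, hys]
    exact hysum
  have hAb : Ab n (FC.ofFIC β) k (rep x) j := by
    rw [hTbr r n β hlr k (rep x) j hj hdx, hxs]
    exact htab
  have hz : L1 β k (rep x) (ad n (rep x) j) := hAb
  have hz' : L1 β k (ad n (rep x) j) (rep x) := RR.symm hz
  have hxz : Bt β k (rep x) (rep y) i ↔ Bt β k (ad n (rep x) j) (rep y) i :=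
    ⟨fun h => F2 k _ _ _ i hz' h, fun h => F2 k _ _ _ i hz h⟩
  rw [hxz]
  have hzj : ad n (rep x) j j = rep x j + 2 * n := by simp [ad]
  have hzt : ∀ t, t ≠ j → ad n (rep x) j t = rep x t := by
    intro t ht
    simp [ad, ht]
  have hdz : 2 ≤ deg k (ad n (rep x) j) := by
    have := tyc_le_deg k j (ad n (rep x) j) hj
    rw [hzj] at this
    omega
  have hx1j : rep x1 j = 2 := by
    rw [hx1 j hj, if_pos rfl]
  have hd1 : 2 ≤ deg k (rep x1) := by
    have := tyc_le_deg k j (rep x1) hj
    rw [hx1j] at this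
    omega
  have hsp : sp k (ad n (rep x) j) = sp k (rep x1) := by
    unfold sp
    apply Finset.filter_congr
    intro t ht
    have ht' : t ≤ k := by
      have := Finset.mem_range.1 ht
      omega
    by_cases h : t = j
    · subst h
      rw [hzj, hx1j]
      constructor <;> intro _ <;> omega
    · rw [hzt t h, hx1 t ht', if_neg h]
  by_cases hc : (sp k (ad n (rep x) j)).max = (i : WithBot ℕ) ∧
      (sp k (rep y)).max = (i : WithBot ℕ)
  · obtain ⟨hc1, hc2⟩ := hc
    have hc1' : (sp k (rep x1)).max = (i : WithBot ℕ) := by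
      rw [← hsp]
      exact hc1
    have hy0 : (fun t => rep y t + (fun _ => 0 : ℕ → ℕ) t) = rep y := by
      funext t
      simp
    constructor
    · intro h
      have h3 := F3 k (ad n (rep x) j) (rep y)
        (fun t => if t = j then 2 + (n - 1) * ad n (rep x) j j else 0) (fun _ => 0) i hdz hdy hi
        hc1 hc2 h
      rw [hy0] at h3
      refine F2 k _ _ _ i ?_ h3
      apply hK
      intro t ht
      by_cases htj : t = j
      · subst htj
        right
        rw [hx1j]
        refine ⟨le_refl 2, ?_, ?_⟩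
        · simp only [if_true]
          omega
        · have he : ad n (rep x) t t + (2 + (n - 1) * ad n (rep x) t t)
              = 2 + n * ad n (rep x) t t := by
            obtain ⟨m, rfl⟩ : ∃ m, n = m + 1 := ⟨n - 1, by omega⟩
            simp only [Nat.add_sub_cancel]
            ring
          simp only [if_true]
          rw [he]
          unfold Nat.ModEq
          rw [Nat.add_mul_mod_self_left]
      · left
        rw [hx1 t ht, if_neg htj]
        simp only [if_neg htj, add_zero]
        rw [hzt t htj]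
    · intro h
      have h3 := F3 k (rep x1) (rep y)
        (fun t => if t = j then rep x j + 2 * n - 2 else 0) (fun _ => 0) i hd1 hdy hi
        hc1' hc2 h
      rw [hy0] at h3
      refine F2 k _ _ _ i ?_ h3
      apply hK
      intro t ht
      left
      by_cases htj : t = j
      · subst htj
        rw [hzj, hx1j]
        simp only [if_true]
        omega
      · rw [hzt t htj, hx1 t ht, if_neg htj]
        simp only [if_neg htj, add_zero]
  · have h1 := F0 k (ad n (rep x) j) (rep y) i hdz hdy hi hc
    rw [hsp] at hc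
    have h2 := F0 k (rep x1) (rep y) i hd1 hdy hi hc
    exact ⟨fun _ => h2, fun _ => h1⟩

end Pool.Agent.MWC.H62
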